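import Pool.Agent.Helper35.PI2.St

/-!
# PI2 module EI: the total of `bE` at one time
-/

set_option autoImplicit false

namespace Helper84.PI2

open Helper35.PI Helper35.PI2
open scoped ContDiff Manifold Topology ENNReal BigOperators
open MeasureTheory Set Filter

theorem int_le {α : Type*} [MeasurableSpace α] {ν : Measure α} {u1 u2 u3 u4 : α → ℝ}
    (h1 : Integrable u1 ν) (h2 : Integrable u2 ν) (h3 : Integrable u3 ν) (h4 : Integrable u4 ν)
    (C₁ δ : ℝ) (h : ∀ y, u1 y ≤ u2 y + C₁ * u3 y - δ * u4 y) :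
    ∫ y, u1 y ∂ν ≤ ∫ y, u2 y ∂ν + C₁ * ∫ y, u3 y ∂ν - δ * ∫ y, u4 y ∂ν := by
  have h23 : Integrable (fun y => u2 y + C₁ * u3 y) ν := h2.add (h3.const_mul C₁)
  have h40 : Integrable (fun y => δ * u4 y) ν := h4.const_mul δ
  have e1 : ∫ y, (u2 y + C₁ * u3 y - δ * u4 y) ∂ν =
      ∫ y, u2 y ∂ν + C₁ * ∫ y, u3 y ∂ν - δ * ∫ y, u4 y ∂ν := by
    rw [integral_sub h23 h40, integral_add h2 (h3.const_mul C₁), integral_const_mul,
      integral_const_mul]
  rw [← e1]
  exact integral_mono h1 (h23.sub h40) h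

theorem pt_le {x σ b d h i g C₁ δ : ℝ} (hx : 0 ≤ x) (hσ : 0 ≤ σ) (hh : h = 0)
    (hb : b ≤ d + C₁ * i - δ * g) :
    x * (b * σ) ≤ x * (d + h) * σ + C₁ * (x * (i * σ)) - δ * (x * (g * σ)) := by
  have h1 := mul_le_mul_of_nonneg_left hb (mul_nonneg hx hσ)
  rw [hh]
  linarith

theorem sum_le (s : Finset ℕ) (a b d g : ℕ → ℝ) (C₁ δ : ℝ)
    (h : ∀ i, a i ≤ b i + C₁ * d i - δ * g i) (hb : ∑ i ∈ s, b i = 0) :
    ∑ i ∈ s, a i ≤ C₁ * ∑ i ∈ s, d i - δ * ∑ i ∈ s, g i := by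
  have h1 : ∑ i ∈ s, a i ≤ ∑ i ∈ s, (b i + C₁ * d i - δ * g i) :=
    Finset.sum_le_sum (fun i _ => h i)
  rw [Finset.sum_sub_distrib, Finset.sum_add_distrib, hb, zero_add, ← Finset.mul_sum,
    ← Finset.mul_sum] at h1
  exact h1

theorem cont_slice {A B : Type*} [TopologicalSpace A] [TopologicalSpace B] (f : A → ℝ → B)
    (t : ℝ) (ht : t < 0)
    (h : ContinuousOn (fun z : A × ℝ => f z.1 z.2) (univ ×ˢ Iio 0)) :
    Continuous (fun q => f q t) := by
  have hmap : Continuous (fun q : A => (q, t)) := by fun_prop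
  exact h.comp_continuous hmap (fun q => ⟨mem_univ _, ht⟩)

theorem cont_comb {A V : Type*} [TopologicalSpace A] [NormedAddCommGroup V] {p th : A → ℝ}
    {H : A → V} (h1 : Continuous p) (h2 : Continuous H) (h3 : Continuous th) :
    Continuous (fun q => p q ^ 4 * (‖H q‖ ^ 2 * th q)) :=
  (h1.pow 4).mul ((h2.norm.pow 2).mul h3)

theorem hEI (hV6 : StV6) (hLT : StLT) (hEB : StEB) (hI4 : StI4) : StEI := by
  intro n N M _ _ _ _ F hF t R C₁ δ ht hR hcpt c χ hχ X hX hXs hXH hpt s hs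
  have hclosed : IsClosed {q : M | ‖F q t‖ ≤ R} := hcpt.isClosed
  have hts : tsupport X ⊆ {q : M | ‖F q t‖ ≤ R} := by
    apply closure_minimal _ hclosed
    intro q hq
    exact hXs q hq
  have hcs : HasCompactSupport X := hcpt.of_isClosed_subset (isClosed_tsupport X) hts
  have hV := hV6 n N M F hF t ht c χ hχ X hX hcs s
    (fun i hi q hq => hs i hi q (hts hq))
  have hth : Continuous (fun q : M => thF n F q t) :=
    cont_slice (fun q t => thF n F q t) t ht (hEB n N M F hF R hR).2.1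
  have hps : Continuous (fun q : M => psR R F q t) :=
    cont_slice (fun q t => psR R F q t) t ht (hEB n N M F hF R hR).2.2.1
  have hHH : Continuous (fun q : M => HH (n := n) F q t) :=
    cont_slice (fun q t => HH (n := n) F q t) t ht (hI4 n N M F hF).2.1
  have hgc := cont_comb hps hHH hth
  refine sum_le s _ _ _ _ C₁ δ (fun i => ?_) hV.2
  have h123 := hLT n N M F hF t ht c χ hχ i
  refine int_le (h123.2.2 R hR) (hV.1 i) (h123.2.1 _ hclosed) (h123.1 _ hgc) C₁ δ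
    (fun y => ?_)
  exact pt_le (hχ.nonneg i _) (Real.sqrt_nonneg _) (hXH _) (hpt _)

end Helper84.PI2
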